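import Pool.Agent.TH865.OG.Rule5
import Pool.Agent.W38.KF.Low

/-!
# `K_5^3`-free 3-graphs encoded by an ordered graph

A 3-graph `H` on a linearly ordered vertex set is encoded by a graph `G` on the same vertices if it
depends only on the ordered graph which `G` induces on a triple whether the triple is an edge. There
are eight ordered graphs with three vertices, so 256 rules. The value `3/4` which Turán's
conjecture predicts for the Turán density of `K_5^3` is proved inside this class, whatever the rule
is. (The class contains the 3-graphs encoded by an unordered graph, where there are 16 rules.)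

Outline: rules for which no homogeneous triple is an edge are covered by Goodman's bound; if both
kinds of homogeneous triples are edges, then `n` is bounded (Ramsey). In the other case one may
assume that the independent triples of `G` are edges and the triangles are not. If the triples
`a < b < c` spanning only `ab` and those spanning only `bc` are edges as well, orient the
non-adjacent pairs upwards and use the sandwich theorem for oriented graphs; for the 48 remaining
rules there is a sum of squares certificate over ordered graphs with five vertices.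
-/

set_option autoImplicit false
open Finset

namespace Pool.Agent.Results.MP_555f9b_co.OrderedEncodings

/-- The 3-graph `H` has no five vertices spanning all ten triples. -/
def K53Free {n : ℕ} (H : Finset (Finset (Fin n))) : Prop :=
  ∀ S : Finset (Fin n), S.card = 5 → ∃ s ⊆ S, s.card = 3 ∧ s ∉ H

/-- `H` is encoded by the graph `G` on the linearly ordered set of vertices `0 < 1 < ... < n - 1`:
two triples `a < b < c` and `a' < b' < c'` such that the order preserving bijection between them is
an isomorphism of the graphs which `G` induces on them are both edges or both non-edges of `H`. -/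
def EncodedByOrdered {n : ℕ} (H : Finset (Finset (Fin n))) (G : Fin n → Fin n → Prop) : Prop :=
  ∀ a b c a' b' c' : Fin n, a < b → b < c → a' < b' → b' < c' →
    (G a b ↔ G a' b') → (G a c ↔ G a' c') → (G b c ↔ G b' c') →
    (({a, b, c} : Finset (Fin n)) ∈ H ↔ ({a', b', c'} : Finset (Fin n)) ∈ H)

open Pool.Agent.TH865.OG in
open scoped Classical in
theorem upper {n : ℕ} (G : Fin n → Fin n → Prop) (H : Finset (Finset (Fin n)))
    (hG : ∀ x y, G x y → G y x) (h3 : ∀ e ∈ H, e.card = 3) (hK : K53Free H)
    (hE : EncodedByOrdered H G) :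
    (H.card : ℝ) ≤ (n : ℝ) ^ 3 / 8 + 200 * (n : ℝ) ^ (11 / 4 : ℝ) := by
  have gs : ∀ x y, G x y ↔ G y x := fun x y => ⟨hG x y, hG y x⟩
  set g : Fin n → Fin n → ℕ := fun x y => if G x y then 1 else 0 with hg
  have g1 : ∀ x y, g x y ≤ 1 := by
    intro x y
    simp only [hg]
    split_ifs <;> omega
  have g2 : ∀ x y, g x y = g y x := by
    intro x y
    simp only [hg]
    rw [if_congr (gs x y) rfl rfl]
  have g3 : ∀ x y x' y', g x y = g x' y' → (G x y ↔ G x' y') := by
    intro x y x' y' h
    simp only [hg] at h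
    by_cases h1 : G x y <;> by_cases h2 : G x' y' <;> simp [h1, h2] at h ⊢
  set r : Fin 8 → Bool := fun t => decide (∃ a b c : Fin n, a < b ∧ b < c ∧
    ({a, b, c} : Finset (Fin n)) ∈ H ∧ typ g a b c = (t : ℕ)) with hr
  have key : ∀ a b c a' b' c' : Fin n, a < b → b < c → a' < b' → b' < c' →
      typ g a b c = typ g a' b' c' →
      (({a, b, c} : Finset (Fin n)) ∈ H ↔ ({a', b', c'} : Finset (Fin n)) ∈ H) := by
    intro a b c a' b' c' h1 h2 h4 h5 h
    unfold typ at h
    have u1 := g1 a b
    have u2 := g1 a c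
    have u3 := g1 b c
    have v1 := g1 a' b'
    have v2 := g1 a' c'
    have v3 := g1 b' c'
    exact hE a b c a' b' c' h1 h2 h4 h5 (g3 _ _ _ _ (by omega)) (g3 _ _ _ _ (by omega))
      (g3 _ _ _ _ (by omega))
  refine rule5 g1 g2 h3 hK r ?_
  intro a b c hab hbc
  constructor
  · intro hm
    refine ⟨⟨typ g a b c, typ_lt g1 a b c⟩, rfl, ?_⟩
    rw [hr]
    exact decide_eq_true ⟨a, b, c, hab, hbc, hm, rfl⟩
  · rintro ⟨t, ht, ht'⟩
    rw [hr] at ht'
    obtain ⟨x, y, z, hxy, hyz, hm, he⟩ := of_decide_eq_true ht'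
    exact (key a b c x y z hab hbc hxy hyz (by rw [he, ht])).2 hm

open Pool.Agent.W38.KF.Low in
theorem bip_iff {n : ℕ} {a b c : Fin n} (hab : a < b) (hbc : b < c) :
    ({a, b, c} : Finset (Fin n)) ∈ Pool.Agent.W38.KF.Low.H n ↔
      (¬ (a ∈ E n ↔ b ∈ E n) ∨ ¬ (a ∈ E n ↔ c ∈ E n) ∨ ¬ (b ∈ E n ↔ c ∈ E n)) := by
  rw [mem_H]
  have hc := card3 hab.ne (hab.trans hbc).ne hbc.ne
  constructor
  · rintro ⟨_, x, hx, y, hy, h1, h2⟩
    simp only [mem_insert, mem_singleton] at hx hy
    rcases hx with rfl | rfl | rfl <;> rcases hy with rfl | rfl | rfl <;> tauto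
  · intro h
    refine ⟨hc, ?_⟩
    by_cases ha : a ∈ E n <;> by_cases hb : b ∈ E n <;> by_cases hc' : c ∈ E n
    · tauto
    · exact ⟨a, by simp, c, by simp, ha, hc'⟩
    · exact ⟨a, by simp, b, by simp, ha, hb⟩
    · exact ⟨a, by simp, b, by simp, ha, hb⟩
    · exact ⟨b, by simp, a, by simp, hb, ha⟩
    · exact ⟨b, by simp, a, by simp, hb, ha⟩
    · exact ⟨c, by simp, a, by simp, hc', ha⟩
    · tauto

open Pool.Agent.W38.KF.Low in
/-- **The Turán density `3/4` of `K_5^3` for 3-graphs encoded by an ordered graph.** A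
`K_5^3`-free 3-graph on the vertices `0 < 1 < ... < n - 1` which is encoded by a graph on the ordered
set of these vertices has at most `n^3/8 + 200 n^(11/4)` edges; and for every `n` there is one with
at least `n^3/8 - n^2` edges. -/
theorem result :
    (∀ (n : ℕ) (G : Fin n → Fin n → Prop) (H : Finset (Finset (Fin n))),
      (∀ x y, G x y → G y x) → (∀ e ∈ H, e.card = 3) → K53Free H → EncodedByOrdered H G →
      (H.card : ℝ) ≤ (n : ℝ) ^ 3 / 8 + 200 * (n : ℝ) ^ (11 / 4 : ℝ)) ∧
    (∀ n : ℕ, ∃ (G : Fin n → Fin n → Prop) (H : Finset (Finset (Fin n))),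
      (∀ x y, G x y → G y x) ∧ (∀ e ∈ H, e.card = 3) ∧ K53Free H ∧ EncodedByOrdered H G ∧
      (n : ℝ) ^ 3 / 8 - (n : ℝ) ^ 2 ≤ (H.card : ℝ)) := by
  refine ⟨fun n G H hG h3 hK hE => upper G H hG h3 hK hE, fun n => ?_⟩
  refine ⟨fun x y => ¬ (x ∈ E n ↔ y ∈ E n), Pool.Agent.W38.KF.Low.H n, ?_,
    fun e he => (mem_H.mp he).1, fun S hS => H_free S hS, ?_, H_large n⟩
  · intro x y h h'
    exact h h'.symm
  · intro a b c a' b' c' h1 h2 h4 h5 e1 e2 e3
    rw [bip_iff h1 h2, bip_iff h4 h5]
    exact or_congr e1 (or_congr e2 e3)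

end Pool.Agent.Results.MP_555f9b_co.OrderedEncodings
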